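import Pool.Agent.H452.ALC.Gen
import Pool.Agent.H452.ALC.Den

set_option autoImplicit false

open Set Topology

namespace Pool.Agent.Results.MP_c2648d_gt.ArcLikeThreeToOne

/-- A subcontinuum of a (metric) space: a nonempty compact connected subset. -/
def IsSubcontinuum {X : Type} [TopologicalSpace X] (K : Set X) : Prop :=
  K.Nonempty ∧ IsCompact K ∧ IsConnected K

/-- `K` is decomposable: it is the union of two subcontinua, both different from `K`. -/
def IsDecomposable {X : Type} [TopologicalSpace X] (K : Set X) : Prop :=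
  ∃ A B : Set X, IsSubcontinuum A ∧ IsSubcontinuum B ∧ A ≠ K ∧ B ≠ K ∧ A ∪ B = K

/-- Every subcontinuum of `X` is indecomposable. -/
def HereditarilyIndecomposable (X : Type) [TopologicalSpace X] : Prop :=
  ∀ K : Set X, IsSubcontinuum K → ¬ IsDecomposable K

/-- Every nondegenerate subcontinuum of `Y` is decomposable. -/
def HereditarilyDecomposable (Y : Type) [TopologicalSpace Y] : Prop :=
  ∀ K : Set Y, IsSubcontinuum K → K.Nontrivial → IsDecomposable K

/-- `X` is arc-like (chainable): for every `ε > 0` there is a continuous map from `X` to the line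
which does not identify points at distance `≥ ε`. (For a nondegenerate continuum `X` and small `ε`
the image is an arc.) -/
def ArcLike (X : Type) [MetricSpace X] : Prop :=
  ∀ ε : ℝ, 0 < ε → ∃ p : X → ℝ, Continuous p ∧ ∀ x y, p x = p y → dist x y < ε

/-- `Y` is a dendroid: it is path connected and the intersection of two subcontinua of `Y` is
connected or empty. -/
def IsDendroid (Y : Type) [TopologicalSpace Y] : Prop :=
  PathConnectedSpace Y ∧ ∀ K L : Set Y, IsSubcontinuum K → IsSubcontinuum L →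
    (K ∩ L).Nonempty → IsConnected (K ∩ L)

/-- The first part: all arc-like continua. -/
theorem part_one (X : Type) [MetricSpace X] [CompactSpace X] [ConnectedSpace X] [Nontrivial X]
    (hX : ArcLike X) (u₀ : X → ℝ) (ε : ℝ) (hu₀ : Continuous u₀) (hε : 0 < ε) :
    ∃ (Y : Type) (_ : MetricSpace Y) (f : X → Y) (v : Y → ℝ),
      CompactSpace Y ∧ ConnectedSpace Y ∧ Nontrivial Y ∧ HereditarilyDecomposable Y ∧
      IsDendroid Y ∧ Continuous f ∧ Function.Surjective f ∧
      (∀ y : Y, (f ⁻¹' {y}).Finite ∧ (f ⁻¹' {y}).ncard ≤ 3) ∧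
      Continuous v ∧ ∀ x, |u₀ x - v (f x)| < ε := by
  classical
  have hX' : Pool.Agent.H452.ALC.ArcLike X := by
    intro δ hδ
    obtain ⟨p, hp, h⟩ := hX δ hδ
    exact ⟨⟨p, hp⟩, h⟩
  obtain ⟨u, hu1, hu⟩ := Pool.Agent.H452.ALC.generic hX' ⟨u₀, hu₀⟩ hε
  obtain ⟨Y, tY, cY, t2Y, f, v, hf, hfs, hv, hvf, hrel⟩ :=
    Pool.Agent.Helper162.Arc.exists_quotient u.continuous
  have h2 : SecondCountableTopology Y := Pool.Agent.Helper162.Arc.secondCountable_image hf hfs
  have hm : TopologicalSpace.MetrizableSpace Y :=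
    TopologicalSpace.metrizableSpace_of_t3_secondCountable Y
  have hfour : ∀ x : Fin 4 → X, Function.Injective x →
      ¬ ∀ i, f (x 0) = f (x i) := fun x hx h => hu x hx fun i => (hrel _ _).1 (h i)
  have hfin : ∀ y : Y, (f ⁻¹' {y}).Finite ∧ (f ⁻¹' {y}).ncard ≤ 3 := by
    intro y
    have key : ∀ s : Finset X, (s : Set _) ⊆ f ⁻¹' {y} → s.card ≤ 3 := by
      intro s hs
      by_contra hcon
      obtain ⟨t, hts, htc⟩ := Finset.exists_subset_card_eq (show 4 ≤ s.card by omega)
      let e := t.equivFinOfCardEq htc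
      refine hfour (fun i => (e.symm i : X)) ?_ ?_
      · intro i j hij
        exact e.symm.injective (Subtype.ext hij)
      · intro i
        have h3 : ∀ i, f (e.symm i : X) = y := fun i =>
          hs (hts (e.symm i).2)
        rw [h3, h3]
    have hfi : (f ⁻¹' {y}).Finite := by
      by_contra hinf
      obtain ⟨s, hs, hsc⟩ := Set.Infinite.exists_subset_card_eq hinf 4
      have := key s hs
      omega
    refine ⟨hfi, ?_⟩
    rw [Set.ncard_eq_toFinset_card _ hfi]
    exact key _ (by simp)
  refine ⟨Y, TopologicalSpace.metrizableSpaceMetric Y, f, v, cY, ?_, ?_, ?_, ⟨?_, ?_⟩, hf, hfs,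
    hfin, hv, fun x => ?_⟩
  · have h1 : IsPreconnected (f '' univ) := isPreconnected_univ.image f hf.continuousOn
    rw [image_univ, hfs.range_eq] at h1
    exact { toPreconnectedSpace := ⟨h1⟩, toNonempty := ⟨f (Classical.arbitrary _)⟩ }
  · by_contra hnt
    rw [not_nontrivial_iff_subsingleton] at hnt
    have hall : ∀ a b, f a = f b := fun a b => Subsingleton.elim _ _
    have hinf : (univ : Set X).Infinite := by
      apply IsPreconnected.infinite_of_nontrivial isPreconnected_univ
      exact Set.nontrivial_univ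
    obtain ⟨a⟩ : Nonempty X := inferInstance
    apply hinf
    have := (hfin (f a)).1
    refine this.subset fun b _ => ?_
    exact hall b a
  · rintro K ⟨hK0, hK1, hK2⟩ hKn
    obtain ⟨A, B, hA, hB, -, -, hAK, hBK, hAB⟩ :=
      Pool.Agent.Helper162.Arc.tree_hd hf hfs u.continuous hv hvf hrel hK1.isClosed
        hK2.isPreconnected hKn
    exact ⟨A, B, ⟨hA.2.nonempty, hA⟩, ⟨hB.2.nonempty, hB⟩, hAK, hBK, hAB⟩
  · exact Pool.Agent.H452.ALC.pathConn hf hfs u.continuous hv hvf hrel
  · rintro K L ⟨-, hK1, hK2⟩ ⟨-, hL1, hL2⟩ hne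
    exact ⟨hne, Pool.Agent.H452.ALC.hunic hf hfs u.continuous hv hvf hrel hK1.isClosed
      hK2.isPreconnected hL1.isClosed hL2.isPreconnected⟩
  · rw [hvf]
    exact hu1 x

/-- The pseudo-arc of the files used here is arc-like for every metric inducing its topology. -/
theorem pa_arcLike (m : MetricSpace Pool.Agent.Helper162.Arc.PA)
    (hm : m.toPseudoMetricSpace.toUniformSpace.toTopologicalSpace =
      (inferInstance : TopologicalSpace Pool.Agent.Helper162.Arc.PA)) :
    @ArcLike Pool.Agent.Helper162.Arc.PA m := by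
  intro ε hε
  by_contra hcon
  push Not at hcon
  -- the closed sets of pairs with equal `n`-th coordinate at distance at least `ε`
  let d : Pool.Agent.Helper162.Arc.PA → Pool.Agent.Helper162.Arc.PA → ℝ :=
    fun x y => m.toPseudoMetricSpace.toDist.dist x y
  have hd : Continuous fun q : Pool.Agent.Helper162.Arc.PA × Pool.Agent.Helper162.Arc.PA =>
      d q.1 q.2 := by
    have h := @continuous_dist Pool.Agent.Helper162.Arc.PA m.toPseudoMetricSpace
    rw [hm] at h
    exact h
  let C : ℕ → Set (Pool.Agent.Helper162.Arc.PA × Pool.Agent.Helper162.Arc.PA) := fun n =>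
    {q | (q.1.1 n : ℝ) = q.2.1 n ∧ ε ≤ d q.1 q.2}
  have hcoord : ∀ n, Continuous fun x : Pool.Agent.Helper162.Arc.PA => (x.1 n : ℝ) := fun n =>
    Pool.Agent.Helper162.Arc.continuous_coordR n
  have hCcl : ∀ n, IsClosed (C n) := fun n =>
    (isClosed_eq ((hcoord n).comp continuous_fst) ((hcoord n).comp continuous_snd)).inter
      (isClosed_le continuous_const hd)
  have hCne : ∀ n, (C n).Nonempty := by
    intro n
    obtain ⟨x, y, hxy, h⟩ := hcon (fun x => (x.1 n : ℝ)) (by rw [hm]; exact hcoord n)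
    exact ⟨(x, y), hxy, h⟩
  have hCanti : ∀ n, C (n + 1) ⊆ C n := by
    rintro n ⟨x, y⟩ ⟨h1, h2⟩
    refine ⟨?_, h2⟩
    have h3 : x.1 (n + 1) = y.1 (n + 1) := Subtype.ext h1
    show (x.1 n : ℝ) = y.1 n
    rw [← x.2 n, ← y.2 n, h3]
  obtain ⟨⟨x, y⟩, hxy⟩ := IsCompact.nonempty_iInter_of_sequence_nonempty_isCompact_isClosed C
    hCanti hCne (hCcl 0).isCompact hCcl
  have hall : ∀ n, (x.1 n : ℝ) = y.1 n ∧ ε ≤ d x y := fun n => mem_iInter.1 hxy n
  have hxy' : x = y := by
    apply Subtype.ext
    funext n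
    exact Subtype.ext (hall n).1
  have h0 := (hall 0).2
  rw [hxy'] at h0
  have h1 : d y y = 0 := m.toPseudoMetricSpace.dist_self y
  linarith

/-- **Theorem.** (1) Let `X` be any nondegenerate arc-like (chainable) continuum. Every continuous
real function on `X` can be approximated uniformly by functions `v ∘ f` where `f : X → Y` is a
continuous surjection with fibres of at most three points onto a nondegenerate hereditarily
decomposable continuum `Y`, in fact a dendroid, and `v` is a continuous real function on `Y`.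
(2) There is a nondegenerate hereditarily indecomposable arc-like continuum, so (1) applies to it
and answers the question. -/
theorem result :
    (∀ (X : Type) [MetricSpace X] [CompactSpace X] [ConnectedSpace X] [Nontrivial X],
      ArcLike X → ∀ (u : X → ℝ) (ε : ℝ), Continuous u → 0 < ε →
      ∃ (Y : Type) (_ : MetricSpace Y) (f : X → Y) (v : Y → ℝ),
        CompactSpace Y ∧ ConnectedSpace Y ∧ Nontrivial Y ∧ HereditarilyDecomposable Y ∧
        IsDendroid Y ∧ Continuous f ∧ Function.Surjective f ∧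
        (∀ y : Y, (f ⁻¹' {y}).Finite ∧ (f ⁻¹' {y}).ncard ≤ 3) ∧
        Continuous v ∧ ∀ x, |u x - v (f x)| < ε) ∧
    ∃ (X : Type) (_ : MetricSpace X), CompactSpace X ∧ ConnectedSpace X ∧ Nontrivial X ∧
      HereditarilyIndecomposable X ∧ ArcLike X := by
  refine ⟨fun X _ _ _ _ hX u ε hu hε => part_one X hX u ε hu hε, ?_⟩
  refine ⟨Pool.Agent.Helper162.Arc.PA,
    TopologicalSpace.metrizableSpaceMetric Pool.Agent.Helper162.Arc.PA, inferInstance,
    inferInstance, inferInstance, ?_, ?_⟩
  · rintro K ⟨-, hK1, hK2⟩ ⟨A, B, ⟨-, hA⟩, ⟨-, hB⟩, hAK, hBK, hAB⟩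
    exact Pool.Agent.Helper162.Arc.pa_hi ⟨hK1, hK2⟩ ⟨A, B, hA, hB, hAB ▸ subset_union_left,
      hAB ▸ subset_union_right, hAK, hBK, hAB⟩
  · exact pa_arcLike _ rfl

end Pool.Agent.Results.MP_c2648d_gt.ArcLikeThreeToOne
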